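import Pool.Agent.Lib.MP_3240be_co.H51.Defs

/-!
# MP_3240be_co, board TREES, row R2B (helper31; paper 4406, Case IIb by helper51)

`FB h n k → T2 c`: `h` hubs and infinitely many copies of `K_(k+1) × K_n`; `T2 c` is a tree of depth two with `h + 1` children
of the centre.
-/

set_option autoImplicit false

namespace MP3240T.H31

open Finset Function

/-! ### Choices -/

/-- An injective choice. -/
theorem pick {Λ V : Type} [Fintype Λ] [DecidableEq V] (N : Λ → Finset V) (S : Finset V)
    (h : ∀ l, S.card + Fintype.card Λ ≤ (N l).card) :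
    ∃ f : Λ → V, Injective f ∧ ∀ l, f l ∈ N l ∧ f l ∉ S := by
  have h1 : ∀ s : Finset Λ, s.card ≤ (s.biUnion fun l => N l \ S).card := by
    intro s
    rcases s.eq_empty_or_nonempty with rfl | ⟨l, hl⟩
    · simp
    · have h2 : s.card ≤ Fintype.card Λ := card_le_univ s
      have h3 : (N l).card ≤ (N l \ S).card + S.card := by
        have h5 : (N l).card ≤ (N l \ S ∪ S).card := card_le_card (by
          intro x hx; by_cases hxS : x ∈ S <;> simp [hx, hxS])
        exact h5.trans (card_union_le _ _)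
      have h4 : (N l \ S).card ≤ (s.biUnion fun l => N l \ S).card :=
        card_le_card (subset_biUnion_of_mem (fun l => N l \ S) hl)
      have := h l
      omega
  obtain ⟨f, hf1, hf2⟩ := (all_card_le_biUnion_card_iff_exists_injective fun l => N l \ S).1 h1
  exact ⟨f, hf1, fun l => mem_sdiff.1 (hf2 l)⟩

/-- An enumeration. -/
theorem enum {V : Type} (N : Finset V) (d : ℕ) (x₀ : V) (h : d ≤ N.card) :
    ∃ ν : ℕ → V, (∀ j < d, ν j ∈ N) ∧ ∀ j < d, ∀ j' < d, ν j = ν j' → j = j' := by
  classical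
  obtain ⟨f, hf1, hf2⟩ := pick (Λ := Fin d) (fun _ => N) ∅ (fun _ => by simpa using h)
  refine ⟨fun j => if h : j < d then f ⟨j, h⟩ else x₀, fun j hj => ?_, fun j hj j' hj' hjj => ?_⟩
  · simp only [dif_pos hj]; exact (hf2 _).1
  · simp only [dif_pos hj, dif_pos hj'] at hjj
    exact congrArg Fin.val (hf1 hjj)

/-- A copy of the tree of depth two. -/
theorem emb_T2 {V : Type} {a : ℕ} (c : Fin a → ℕ) (G : SimpleGraph V) (g : V) (α : Fin a → V)
    (l : (Σ i, Fin (c i)) → V) (hα : Injective α) (hl : Injective l) (hgα : ∀ i, G.Adj g (α i))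
    (hαl : ∀ i j, G.Adj (α i) (l ⟨i, j⟩)) (hlg : ∀ s, l s ≠ g) (hlα : ∀ s i, l s ≠ α i) : Emb (T2 c) G := by
  have hne : ∀ i, α i ≠ g := fun i h => by
    have h1 := hgα i
    rw [h] at h1
    exact G.loopless.irrefl _ h1
  refine ⟨fun v => match v with | .ctr => g | .al i => α i | .lf i j => l ⟨i, j⟩, ?_, ?_⟩
  · rintro (_ | i | ⟨i, j⟩) (_ | i' | ⟨i', j'⟩) h
    · rfl
    · exact absurd h.symm (hne i')
    · exact absurd h.symm (hlg _)
    · exact absurd h (hne i)
    · exact congrArg D2.al (hα h)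
    · exact absurd h.symm (hlα _ _)
    · exact absurd h (hlg _)
    · exact absurd h (hlα _ _)
    · have h1 := hl h
      have h2 := congrArg Sigma.fst h1
      have h2 : i = i' := h2
      subst h2
      have h3 : j = j' := by simpa using h1
      rw [h3]
  · rintro (_ | i | ⟨i, j⟩) (_ | i' | ⟨i', j'⟩) h <;>
      simp only [T2, SimpleGraph.fromRel_adj] at h
    · exact absurd rfl h.1
    · exact hgα i'
    · rcases h.2 with h | h <;> exact h.elim
    · exact (hgα i).symm
    · rcases h.2 with h | h <;> exact h.elim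
    · rcases h.2 with h | h
      · have h : i = i' := h
        subst h
        exact hαl _ _
      · exact h.elim
    · rcases h.2 with h | h <;> exact h.elim
    · rcases h.2 with h | h
      · exact h.elim
      · have h : i' = i := h
        subst h
        exact (hαl _ _).symm
    · rcases h.2 with h | h <;> exact h.elim

/-! ### The uniform colouring -/

/-- The positions in one copy. -/
abbrev X (n k : ℕ) := Fin (k + 1) × Fin n

/-- The edges of one copy. -/
def Ax {n k : ℕ} (x y : X n k) : Prop := x ≠ y ∧ (x.1 = y.1 ∨ x.2 = y.2)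

theorem Ax.symm {n k : ℕ} {x y : X n k} (h : Ax x y) : Ax y x :=
  ⟨h.1.symm, h.2.imp Eq.symm Eq.symm⟩

variable {h n k : ℕ}

/-- The colour class of a pattern. -/
def Gm (P : X n k → X n k → Bool) (Q : Fin h → X n k → Bool) (b : Bool) :
    SimpleGraph (Fin h ⊕ (ℕ × X n k)) :=
  SimpleGraph.fromRel (fun u v => match u, v with
    | .inl i, .inr (_, x) => Q i x = b
    | .inr (m, x), .inr (m', y) => m = m' ∧ Ax x y ∧ P x y = b
    | _, _ => False)

theorem adj_hub {P : X n k → X n k → Bool} {Q : Fin h → X n k → Bool} {b : Bool} {i : Fin h} {m : ℕ} {x : X n k}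
    (hq : Q i x = b) : (Gm P Q b).Adj (.inl i) (.inr (m, x)) := by
  rw [Gm, SimpleGraph.fromRel_adj]
  exact ⟨by simp, Or.inl hq⟩

theorem adj_low {P : X n k → X n k → Bool} {Q : Fin h → X n k → Bool} {b : Bool} {m : ℕ} {x y : X n k}
    (ha : Ax x y) (hp : P x y = b) : (Gm P Q b).Adj (.inr (m, x)) (.inr (m, y)) := by
  rw [Gm, SimpleGraph.fromRel_adj]
  exact ⟨by simpa using ha.1, Or.inl ⟨rfl, ha, hp⟩⟩

section

open Classical in
/-- The neighbours of colour `b` in the copy. -/
noncomputable def nbr (P : X n k → X n k → Bool) (b : Bool) (x : X n k) : Finset (X n k) :=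
  univ.filter fun y => Ax x y ∧ P x y = b

open Classical in
/-- The neighbours of colour `b` in the row. -/
noncomputable def row (P : X n k → X n k → Bool) (b : Bool) (x : X n k) : Finset (Fin n) :=
  univ.filter fun t => t ≠ x.2 ∧ P x (x.1, t) = b

variable {c : Fin (h + 1) → ℕ} {P : X n k → X n k → Bool} {Q : Fin h → X n k → Bool}

theorem mem_nbr {b : Bool} {x y : X n k} : y ∈ nbr P b x ↔ Ax x y ∧ P x y = b := by
  simp [nbr]

theorem mem_row {b : Bool} {x : X n k} {t : Fin n} : t ∈ row P b x ↔ t ≠ x.2 ∧ P x (x.1, t) = b := by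
  simp [row]

theorem ax_row {x : X n k} {t : Fin n} (ht : t ≠ x.2) : Ax x (x.1, t) :=
  ⟨fun h => ht (by rw [h]), Or.inl rfl⟩

theorem row_le (b : Bool) (x : X n k) : (row P b x).card ≤ (nbr P b x).card := by
  refine card_le_card_of_injOn (fun t => (x.1, t)) ?_ ?_
  · intro t ht
    rw [mem_coe, mem_row] at ht
    rw [mem_coe, mem_nbr]
    exact ⟨ax_row ht.1, ht.2⟩
  · intro t _ t' _ h
    exact congrArg Prod.snd h

theorem row_add (b : Bool) (x : X n k) : (row P b x).card + (row P (!b) x).card + 1 = n := by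
  classical
  have h1 : Disjoint (row P b x) (row P (!b) x) := by
    rw [disjoint_left]
    intro t ht ht'
    rw [mem_row] at ht ht'
    rw [ht.2] at ht'
    cases b <;> simp at ht'
  have h2 : row P b x ∪ row P (!b) x = univ.erase x.2 := by
    ext t
    rw [mem_union, mem_row, mem_row, mem_erase]
    constructor
    · rintro (h | h) <;> exact ⟨h.1, mem_univ _⟩
    · rintro ⟨h, -⟩
      by_cases hb : P x (x.1, t) = b
      · exact Or.inl ⟨h, hb⟩
      · right
        refine ⟨h, ?_⟩
        cases hP : P x (x.1, t) <;> cases b <;> simp_all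
  rw [← card_union_of_disjoint h1, h2, card_erase_of_mem (mem_univ _), card_univ, Fintype.card_fin]
  have := x.2.pos
  omega

/-- Step (1). -/
theorem st1 (hfree : ∀ b, ¬ Emb (T2 c) (Gm P Q b)) {b : Bool} {x : X n k} {y : Fin h} (hy : Q y x = b) :
    ∃ i, (nbr P b x).card < c i := by
  by_contra hcon
  push Not at hcon
  apply hfree b
  obtain ⟨ν, hν1, hν2⟩ := enum (nbr P b x) (nbr P b x).card x le_rfl
  have hlt : ∀ (i : Fin (h + 1)) (j : Fin (c i)), j.val < (nbr P b x).card := fun i j => lt_of_lt_of_le j.2 (hcon i)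
  refine emb_T2 c _ (.inl y) (fun i => .inr (i.val, x)) (fun s => .inr (s.1.val, ν s.2.val)) ?_ ?_ ?_ ?_ ?_ ?_
  · intro i i' hii
    have h1 : (i.val, x) = (i'.val, x) := Sum.inr.inj hii
    exact Fin.ext (congrArg Prod.fst h1)
  · rintro ⟨i, j⟩ ⟨i', j'⟩ hij
    have h1 : (i.val, ν j.val) = (i'.val, ν j'.val) := Sum.inr.inj hij
    have h2 : i = i' := Fin.ext (congrArg Prod.fst h1)
    subst h2
    have h3 := hν2 _ (hlt i j) _ (hlt i j') (congrArg Prod.snd h1)
    rw [Fin.ext h3]
  · intro i; exact adj_hub hy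
  · intro i j
    obtain ⟨h1, h2⟩ := mem_nbr.1 (hν1 _ (hlt i j))
    exact adj_low h1 h2
  · rintro ⟨i, j⟩; simp
  · rintro ⟨i, j⟩ i' hii
    have h1 : (i.val, ν j.val) = (i'.val, x) := Sum.inr.inj hii
    exact (mem_nbr.1 (hν1 _ (hlt i j))).1.1 (congrArg Prod.snd h1).symm

/-- Step (2). -/
theorem st2 (hfree : ∀ b, ¬ Emb (T2 c) (Gm P Q b)) {b : Bool} {x₀ x' : X n k} (h0 : ∀ y, Q y x₀ = b)
    (hadj : Ax x₀ x') (hP : P x₀ x' = b) (hsym : ∀ x y, P x y = P y x) (i₀ : Fin (h + 1)) :
    (nbr P b x').card ≤ c i₀ := by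
  classical
  by_contra hcon
  push Not at hcon
  apply hfree b
  have hmem : x₀ ∈ nbr P b x' := mem_nbr.2 ⟨hadj.symm, by rw [← hsym]; exact hP⟩
  obtain ⟨ν, hν1, hν2⟩ := enum ((nbr P b x').erase x₀) (c i₀) x' (by rw [card_erase_of_mem hmem]; omega)
  set e : {i : Fin (h + 1) // i ≠ i₀} ≃ Fin h := (finSuccAboveEquiv i₀).symm with he
  set α : Fin (h + 1) → Fin h ⊕ (ℕ × X n k) := fun i => if hi : i = i₀ then .inr (0, x') else .inl (e ⟨i, hi⟩) with hα
  set l : (Σ i, Fin (c i)) → Fin h ⊕ (ℕ × X n k) := fun s =>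
    if s.1 = i₀ then .inr (0, ν s.2.val) else .inr (1 + Encodable.encode s, x₀) with hl
  have hα0 : α i₀ = .inr (0, x') := by simp [hα]
  have hα1 : ∀ i, ∀ hi : i ≠ i₀, α i = .inl (e ⟨i, hi⟩) := fun i hi => by simp [hα, hi]
  have hl0 : ∀ s : (Σ i, Fin (c i)), s.1 = i₀ → l s = .inr (0, ν s.2.val) := fun s hs => by simp [hl, hs]
  have hl1 : ∀ s : (Σ i, Fin (c i)), s.1 ≠ i₀ → l s = .inr (1 + Encodable.encode s, x₀) := fun s hs => by
    simp only [hl, if_neg hs]
  have hν : ∀ s : (Σ i, Fin (c i)), s.1 = i₀ → ν s.2.val ∈ (nbr P b x').erase x₀ := by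
    rintro ⟨i, j⟩ hs
    have hs : i = i₀ := hs
    subst hs
    exact hν1 _ j.2
  refine emb_T2 c _ (.inr (0, x₀)) α l ?_ ?_ ?_ ?_ ?_ ?_
  · intro i i' hii
    by_cases h1 : i = i₀ <;> by_cases h2 : i' = i₀
    · rw [h1, h2]
    · rw [h1, hα0, hα1 i' h2] at hii; exact absurd hii (by simp)
    · rw [h2, hα0, hα1 i h1] at hii; exact absurd hii (by simp)
    · rw [hα1 i h1, hα1 i' h2] at hii
      have := e.injective (Sum.inl.inj hii)
      exact congrArg Subtype.val this
  · intro s s' hss
    by_cases h1 : s.1 = i₀ <;> by_cases h2 : s'.1 = i₀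
    · rw [hl0 s h1, hl0 s' h2] at hss
      obtain ⟨i, j⟩ := s
      obtain ⟨i', j'⟩ := s'
      have h1 : i = i₀ := h1
      have h2 : i' = i₀ := h2
      subst h1
      subst h2
      have h3 : ((0 : ℕ), ν j.val) = (0, ν j'.val) := Sum.inr.inj hss
      have h4 := hν2 _ j.2 _ j'.2 (congrArg Prod.snd h3)
      rw [Fin.ext h4]
    · rw [hl0 s h1, hl1 s' h2] at hss
      have h3 := congrArg Prod.fst (Sum.inr.inj hss)
      have h3 : 0 = 1 + Encodable.encode s' := h3
      omega
    · rw [hl1 s h1, hl0 s' h2] at hss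
      have h3 := congrArg Prod.fst (Sum.inr.inj hss)
      have h3 : 1 + Encodable.encode s = 0 := h3
      omega
    · rw [hl1 s h1, hl1 s' h2] at hss
      have h3 := congrArg Prod.fst (Sum.inr.inj hss)
      have h3 : 1 + Encodable.encode s = 1 + Encodable.encode s' := h3
      exact Encodable.encode_injective (by omega)
  · intro i
    by_cases h1 : i = i₀
    · rw [h1, hα0]; exact adj_low hadj hP
    · rw [hα1 i h1]; exact (adj_hub (h0 _)).symm
  · intro i j
    by_cases h1 : i = i₀
    · have h2 := mem_nbr.1 (mem_of_mem_erase (hν ⟨i, j⟩ h1))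
      have h3 : α i = .inr (0, x') := by rw [h1]; exact hα0
      rw [hl0 ⟨i, j⟩ h1, h3]
      exact adj_low h2.1 h2.2
    · rw [hα1 i h1, hl1 ⟨i, j⟩ h1]; exact adj_hub (h0 _)
  · intro s hs
    by_cases h1 : s.1 = i₀
    · rw [hl0 s h1] at hs
      have h3 := congrArg Prod.snd (Sum.inr.inj hs)
      exact ne_of_mem_erase (hν s h1) h3
    · rw [hl1 s h1] at hs
      have h3 := congrArg Prod.fst (Sum.inr.inj hs)
      have h3 : 1 + Encodable.encode s = 0 := h3
      omega
  · intro s i hs
    by_cases h2 : i = i₀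
    · rw [h2, hα0] at hs
      by_cases h1 : s.1 = i₀
      · rw [hl0 s h1] at hs
        have h3 := congrArg Prod.snd (Sum.inr.inj hs)
        exact (mem_nbr.1 (mem_of_mem_erase (hν s h1))).1.1 h3.symm
      · rw [hl1 s h1] at hs
        have h3 := congrArg Prod.fst (Sum.inr.inj hs)
        have h3 : 1 + Encodable.encode s = 0 := h3
        omega
    · rw [hα1 i h2] at hs
      by_cases h1 : s.1 = i₀
      · rw [hl0 s h1] at hs; exact absurd hs (by simp)
      · rw [hl1 s h1] at hs; exact absurd hs (by simp)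

/-- The numbers of R2B. -/
structure Num (h : ℕ) (c : Fin (h + 1) → ℕ) (n k : ℕ) : Prop where
  h1 : 1 ≤ h
  hn : n = 2 + h + ∑ j, c j
  big : ∀ i, 2 * c i ≤ n
  small : ∀ K, (∀ i, K ≤ c i) → (h + 1) * K + h ≤ ∑ j, c j → K ≤ k

theorem Num.two {c : Fin (h + 1) → ℕ} (hN : Num h c n k) {K : ℕ} (hK : ∀ i, K ≤ c i) : 2 * K ≤ ∑ j, c j := by
  have h1 : (h + 1) * K ≤ ∑ j, c j := by
    calc (h + 1) * K = ∑ _j : Fin (h + 1), K := by simp
      _ ≤ ∑ j, c j := sum_le_sum fun i _ => hK i
  have h2 : 2 * K ≤ (h + 1) * K := Nat.mul_le_mul_right K (by have := hN.h1; omega)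
  omega

/-- Both degrees cannot be small. -/
theorem no_both {c : Fin (h + 1) → ℕ} (hN : Num h c n k) (b : Bool) (x : X n k) (h1 : ∀ i, (nbr P b x).card ≤ c i)
    (h2 : ∀ i, (nbr P (!b) x).card ≤ c i) : False := by
  have e1 := hN.two h1
  have e2 := hN.two h2
  have e3 := row_add (P := P) b x
  have e4 := row_le (P := P) b x
  have e5 := row_le (P := P) (!b) x
  have := hN.hn
  omega

/-- All hub edges at a low vertex have the same colour. -/
theorem typ {c : Fin (h + 1) → ℕ} (hN : Num h c n k) (hfree : ∀ b, ¬ Emb (T2 c) (Gm P Q b)) (x : X n k) (y y' : Fin h) :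
    Q y x = Q y' x := by
  by_contra hcon
  have hb : Q y' x = !(Q y x) := by
    cases h1 : Q y x <;> cases h2 : Q y' x <;> simp_all
  obtain ⟨i, hi⟩ := st1 hfree (b := Q y x) (x := x) (y := y) rfl
  obtain ⟨i', hi'⟩ := st1 hfree (b := !(Q y x)) (x := x) (y := y') hb
  have e3 := row_add (P := P) (Q y x) x
  have e4 := row_le (P := P) (Q y x) x
  have e5 := row_le (P := P) (!(Q y x)) x
  have := hN.big i
  have := hN.big i'
  omega

/-- The least number of leaves at a child. -/
theorem exists_min' (c : Fin (h + 1) → ℕ) : ∃ i₀, ∀ i, c i₀ ≤ c i := by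
  obtain ⟨i₀, h1⟩ := Finite.exists_min c
  exact ⟨i₀, h1⟩

section main

variable {c : Fin (h + 1) → ℕ} (hN : Num h c n k) (hfree : ∀ b, ¬ Emb (T2 c) (Gm P Q b)) (hsym : ∀ x y, P x y = P y x)

include hN hfree hsym

/-- The case of step (3). -/
theorem row_aux (y₀ : Fin h) (r : Fin (k + 1)) (b : Bool)
    (hb : n ≤ 2 * (univ.filter fun t : Fin n => Q y₀ (r, t) = b).card) (s : Fin n) : Q y₀ (r, s) = b := by
  classical
  by_contra hcon
  have hs : ∀ y, Q y (r, s) = !b := fun y => by
    rw [typ hN hfree (r, s) y y₀]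
    cases h1 : Q y₀ (r, s) <;> cases b <;> simp_all
  obtain ⟨i₀, hi₀⟩ := exists_min' c
  have hm := hN.two hi₀
  have hn := hN.hn
  -- all row edges at `(r, s)` have the colour `b`
  have hA : ∀ t, t ≠ s → P (r, s) (r, t) = b := by
    intro t hts
    by_contra hP
    have hP : P (r, s) (r, t) = !b := by cases h1 : P (r, s) (r, t) <;> cases b <;> simp_all
    have h1 : ∀ i, (nbr P (!b) (r, t)).card ≤ c i := fun i => st2 hfree hs (ax_row hts) hP hsym i
    by_cases h2 : ∃ u, u ≠ t ∧ Q y₀ (r, u) = b ∧ P (r, t) (r, u) = b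
    · obtain ⟨u, hut, hu, hPu⟩ := h2
      refine no_both hN b (r, t) (fun i => ?_) h1
      refine st2 hfree (b := b) (x₀ := (r, u)) (x' := (r, t)) (fun y => ?_) (ax_row (x := (r, t)) hut).symm ?_ hsym i
      · rw [typ hN hfree (r, u) y y₀]; exact hu
      · rw [hsym]; exact hPu
    · push Not at h2
      have h3 : (univ.filter fun u : Fin n => Q y₀ (r, u) = b).card ≤ (nbr P (!b) (r, t)).card := by
        refine card_le_card_of_injOn (fun u => if u = t then (r, s) else (r, u)) ?_ ?_
        · intro u hu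
          rw [mem_coe, mem_filter] at hu
          rw [mem_coe, mem_nbr]
          by_cases hut : u = t
          · simp only [if_pos hut]
            exact ⟨(ax_row (x := (r, s)) hts).symm, by rw [hsym]; exact hP⟩
          · simp only [if_neg hut]
            refine ⟨ax_row (x := (r, t)) hut, ?_⟩
            have h4 := h2 u hut hu.2
            cases h5 : P (r, t) (r, u) <;> cases b <;> simp_all
        · intro u hu u' hu' huu
          rw [mem_coe, mem_filter] at hu hu'
          by_cases h4 : u = t <;> by_cases h5 : u' = t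
          · rw [h4, h5]
          · simp only [if_pos h4, if_neg h5] at huu
            have h6 : s = u' := congrArg Prod.snd huu
            rw [← h6] at hu'
            exact absurd hu'.2 hcon
          · simp only [if_neg h4, if_pos h5] at huu
            have h6 : u = s := congrArg Prod.snd huu
            rw [h6] at hu
            exact absurd hu.2 hcon
          · simp only [if_neg h4, if_neg h5] at huu
            exact congrArg Prod.snd huu
      have h4 := h1 i₀
      omega
  -- contradiction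
  have h1 : 0 < (univ.filter fun t : Fin n => Q y₀ (r, t) = b).card := by
    have := s.pos
    omega
  obtain ⟨u, hu⟩ := card_pos.1 h1
  rw [mem_filter] at hu
  have hus : u ≠ s := fun h => hcon (by rw [← h]; exact hu.2)
  have h2 : (nbr P b (r, s)).card ≤ c i₀ := by
    refine st2 hfree (b := b) (x₀ := (r, u)) (x' := (r, s)) (fun y => ?_) (ax_row (x := (r, s)) hus).symm ?_ hsym i₀
    · rw [typ hN hfree (r, u) y y₀]; exact hu.2
    · rw [hsym]; exact hA u hus
  have h3 : row P b (r, s) = univ.erase s := by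
    ext t
    rw [mem_row, mem_erase]
    exact ⟨fun h => ⟨h.1, mem_univ _⟩, fun h => ⟨h.1, hA t h.1⟩⟩
  have h4 := row_le (P := P) b (r, s)
  rw [h3, card_erase_of_mem (mem_univ _), card_univ, Fintype.card_fin] at h4
  omega

/-- Step (3): rows have types. -/
theorem row_typ (y₀ : Fin h) (r : Fin (k + 1)) : ∃ b, ∀ s, Q y₀ (r, s) = b := by
  classical
  have h1 : (univ.filter fun t : Fin n => Q y₀ (r, t) = true).card +
      (univ.filter fun t : Fin n => Q y₀ (r, t) = false).card = n := by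
    have h2 := card_filter_add_card_filter_not (s := (univ : Finset (Fin n))) (fun t => Q y₀ (r, t) = true)
    rw [card_univ, Fintype.card_fin] at h2
    have h3 : (univ.filter fun t : Fin n => ¬ Q y₀ (r, t) = true) = univ.filter fun t : Fin n => Q y₀ (r, t) = false := by
      ext t; simp
    rw [h3] at h2
    exact h2
  rcases Nat.lt_or_ge (2 * (univ.filter fun t : Fin n => Q y₀ (r, t) = true).card) n with h2 | h2
  · exact ⟨false, row_aux hN hfree hsym y₀ r false (by omega)⟩
  · exact ⟨true, row_aux hN hfree hsym y₀ r true h2⟩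

/-- In a row of type `b` the row degrees of colour `b` are small. -/
theorem row_small (y₀ : Fin h) (r : Fin (k + 1)) (b : Bool) (hb : ∀ s, Q y₀ (r, s) = b) (s : Fin n) (i : Fin (h + 1)) :
    (row P b (r, s)).card ≤ c i := by
  rcases (row P b (r, s)).eq_empty_or_nonempty with h0 | ⟨u, hu⟩
  · rw [h0]; simp
  · rw [mem_row] at hu
    have h1 : (nbr P b (r, s)).card ≤ c i := by
      refine st2 hfree (b := b) (x₀ := (r, u)) (x' := (r, s)) (fun y => ?_) (ax_row (x := (r, s)) hu.1).symm ?_ hsym i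
      · rw [typ hN hfree (r, u) y y₀]; exact hb u
      · rw [hsym]; exact hu.2
    exact (row_le b (r, s)).trans h1

/-- Step (4): all rows have the same type. -/
theorem all_typ (y₀ : Fin h) : ∃ b, ∀ x, Q y₀ x = b := by
  obtain ⟨i₀, hi₀⟩ := exists_min' c
  have hm := hN.two hi₀
  have hn := hN.hn
  have s₀ : Fin n := ⟨0, by omega⟩
  obtain ⟨b, hb⟩ := row_typ hN hfree hsym y₀ 0
  refine ⟨b, fun x => ?_⟩
  obtain ⟨r, s⟩ := x
  obtain ⟨b', hb'⟩ := row_typ hN hfree hsym y₀ r
  rw [hb' s]
  by_contra hne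
  have hbb : b' = !b := by cases b <;> cases b' <;> simp_all
  subst hbb
  have hr : r ≠ 0 := by
    intro h0
    subst h0
    have := hb' s
    rw [hb s] at this
    cases b <;> simp at this
  have hax : Ax ((0 : Fin (k + 1)), s) (r, s) := ⟨fun h => hr (congrArg Prod.fst h).symm, Or.inr rfl⟩
  have e1 := row_small hN hfree hsym y₀ 0 b hb s i₀
  have e2 := row_add (P := P) b ((0 : Fin (k + 1)), s)
  have e3 := row_le (P := P) (!b) ((0 : Fin (k + 1)), s)
  have f1 := row_small hN hfree hsym y₀ r (!b) hb' s i₀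
  have f2 := row_add (P := P) b (r, s)
  have f3 := row_le (P := P) b (r, s)
  by_cases hP : P ((0 : Fin (k + 1)), s) (r, s) = b
  · have h1 := st2 hfree (b := b) (x₀ := ((0 : Fin (k + 1)), s)) (x' := (r, s))
      (fun y => by rw [typ hN hfree _ y y₀]; exact hb s) hax hP hsym i₀
    omega
  · have hP : P (r, s) ((0 : Fin (k + 1)), s) = !b := by
      rw [hsym]
      cases h1 : P ((0 : Fin (k + 1)), s) (r, s) <;> cases b <;> simp_all
    have h1 := st2 hfree (b := !b) (x₀ := (r, s)) (x' := ((0 : Fin (k + 1)), s))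
      (fun y => by rw [typ hN hfree _ y y₀]; exact hb' s) hax.symm hP hsym i₀
    omega

/-- Step (5): column edges. -/
theorem col_typ (b : Bool) (hb : ∀ y x, Q y x = b) (r r' : Fin (k + 1)) (hr : r ≠ r') (s : Fin n) :
    P (r, s) (r', s) = b := by
  classical
  by_contra hcon
  have hP : P (r, s) (r', s) = !b := by cases h1 : P (r, s) (r', s) <;> cases b <;> simp_all
  have y₀ : Fin h := ⟨0, hN.h1⟩
  obtain ⟨i₀, hi₀⟩ := exists_min' c
  have hm := hN.two hi₀
  have hn := hN.hn
  have hbig : ∀ x : X n k, n ≤ (row P (!b) x).card + 1 + c i₀ := by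
    intro x
    have e1 := row_small hN hfree hsym y₀ x.1 b (fun s => hb _ _) x.2 i₀
    have e2 := row_add (P := P) b x
    have e1 : (row P b x).card ≤ c i₀ := e1
    omega
  apply hfree (!b)
  -- the children
  have hc1 : Fintype.card {i : Fin (h + 1) // i ≠ i₀} = h := by
    rw [Fintype.card_subtype_compl, Fintype.card_subtype_eq, Fintype.card_fin]; omega
  have hle0 : c i₀ ≤ ∑ j, c j := single_le_sum (fun _ _ => Nat.zero_le _) (mem_univ i₀)
  obtain ⟨α', hα1, hα2⟩ := pick (Λ := {i : Fin (h + 1) // i ≠ i₀}) (fun _ => row P (!b) (r, s)) ∅ (fun _ => by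
    rw [hc1, card_empty]
    have := hbig (r, s)
    omega)
  -- the leaves
  have hc2 : Fintype.card {u : (Σ i, Fin (c i)) // u.1 ≠ i₀} + c i₀ ≤ ∑ j, c j := by
    have h1 : Fintype.card ({u : (Σ i, Fin (c i)) // u.1 ≠ i₀} ⊕ Fin (c i₀)) ≤ Fintype.card (Σ i, Fin (c i)) := by
      refine Fintype.card_le_of_injective (fun u => match u with | .inl u => u.1 | .inr j => ⟨i₀, j⟩) ?_
      rintro (⟨u, hu⟩ | j) (⟨u', hu'⟩ | j') huu
      · have h2 : u = u' := huu
        subst h2; rfl
      · have h2 : u = ⟨i₀, j'⟩ := huu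
        exact absurd (by rw [h2]) hu
      · have h2 : (⟨i₀, j⟩ : (Σ i, Fin (c i))) = u' := huu
        exact absurd (by rw [← h2]) hu'
      · have h2 : (⟨i₀, j⟩ : (Σ i, Fin (c i))) = ⟨i₀, j'⟩ := huu
        have h3 : j = j' := by simpa using h2
        rw [h3]
    simpa [Fintype.card_sum, Fintype.card_sigma] using h1
  obtain ⟨l', hl1, hl2⟩ := pick (Λ := {u : (Σ i, Fin (c i)) // u.1 ≠ i₀})
    (fun u => row P (!b) (r, α' ⟨u.1.1, u.2⟩)) (insert s (univ.image α')) (fun u => by
      have h1 := hbig (r, α' ⟨u.1.1, u.2⟩)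
      have h2 : (insert s (univ.image α')).card ≤ h + 1 := by
        refine (card_insert_le _ _).trans ?_
        have h3 : (univ.image α').card ≤ h := by
          refine card_image_le.trans ?_
          rw [card_univ, hc1]
        omega
      omega)
  obtain ⟨ν, hν1, hν2⟩ := enum (row P (!b) (r', s)) (c i₀) s (by
    have := hbig (r', s)
    omega)
  set α : Fin (h + 1) → Fin h ⊕ (ℕ × X n k) := fun i =>
    if hi : i = i₀ then .inr (0, (r', s)) else .inr (0, (r, α' ⟨i, hi⟩)) with hα
  set l : (Σ i, Fin (c i)) → Fin h ⊕ (ℕ × X n k) := fun u =>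
    if hu : u.1 = i₀ then .inr (0, (r', ν u.2.val)) else .inr (0, (r, l' ⟨u, hu⟩)) with hl
  have hα0 : α i₀ = .inr (0, (r', s)) := by simp [hα]
  have hα1' : ∀ i, ∀ hi : i ≠ i₀, α i = .inr (0, (r, α' ⟨i, hi⟩)) := fun i hi => by simp only [hα, dif_neg hi]
  have hl0 : ∀ u : (Σ i, Fin (c i)), u.1 = i₀ → l u = .inr (0, (r', ν u.2.val)) := fun u hu => by
    simp only [hl, dif_pos hu]
  have hl1' : ∀ u : (Σ i, Fin (c i)), ∀ hu : u.1 ≠ i₀, l u = .inr (0, (r, l' ⟨u, hu⟩)) := fun u hu => by
    simp only [hl, dif_neg hu]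
  have hlt : ∀ u : (Σ i, Fin (c i)), u.1 = i₀ → u.2.val < c i₀ := by
    rintro ⟨i, j⟩ hs
    have hs : i = i₀ := hs
    subst hs
    exact j.2
  have hα2' : ∀ i, α' i ≠ s ∧ P (r, s) (r, α' i) = !b := fun i => mem_row.1 (hα2 i).1
  have hlS : ∀ u, l' u ≠ s ∧ ∀ i, l' u ≠ α' i := by
    intro u
    have h1 := (hl2 u).2
    rw [mem_insert, not_or] at h1
    exact ⟨h1.1, fun i hi => h1.2 (mem_image.2 ⟨i, mem_univ _, hi.symm⟩)⟩
  have key : ∀ {m m' : ℕ} {x x' : X n k}, (Sum.inr (m, x) : Fin h ⊕ (ℕ × X n k)) = .inr (m', x') → x = x' :=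
    fun h => congrArg Prod.snd (Sum.inr.inj h)
  refine emb_T2 c _ (.inr (0, (r, s))) α l ?_ ?_ ?_ ?_ ?_ ?_
  · intro i i' hii
    by_cases h1 : i = i₀ <;> by_cases h2 : i' = i₀
    · rw [h1, h2]
    · rw [h1, hα0, hα1' i' h2] at hii
      exact absurd (congrArg Prod.fst (key hii)).symm hr
    · rw [h2, hα0, hα1' i h1] at hii
      exact absurd (congrArg Prod.fst (key hii)) hr
    · rw [hα1' i h1, hα1' i' h2] at hii
      exact congrArg Subtype.val (hα1 (congrArg Prod.snd (key hii)))
  · intro u u' huu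
    by_cases h1 : u.1 = i₀ <;> by_cases h2 : u'.1 = i₀
    · rw [hl0 u h1, hl0 u' h2] at huu
      have h3 := hν2 _ (hlt u h1) _ (hlt u' h2) (congrArg Prod.snd (key huu))
      obtain ⟨i, j⟩ := u
      obtain ⟨i', j'⟩ := u'
      have h1 : i = i₀ := h1
      have h2 : i' = i₀ := h2
      subst h1
      subst h2
      have h4 : j' = j := (Fin.ext h3).symm
      rw [h4]
    · rw [hl0 u h1, hl1' u' h2] at huu
      exact absurd (congrArg Prod.fst (key huu)).symm hr
    · rw [hl1' u h1, hl0 u' h2] at huu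
      exact absurd (congrArg Prod.fst (key huu)) hr
    · rw [hl1' u h1, hl1' u' h2] at huu
      exact congrArg Subtype.val (hl1 (congrArg Prod.snd (key huu)))
  · intro i
    by_cases h1 : i = i₀
    · rw [h1, hα0]
      exact adj_low ⟨fun h => hr (congrArg Prod.fst h), Or.inr rfl⟩ hP
    · rw [hα1' i h1]
      exact adj_low (ax_row (x := (r, s)) (hα2' _).1) (hα2' _).2
  · intro i j
    by_cases h1 : i = i₀
    · have h2 := mem_row.1 (hν1 _ (hlt ⟨i, j⟩ h1))
      have h3 : α i = .inr (0, (r', s)) := by rw [h1]; exact hα0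
      rw [hl0 ⟨i, j⟩ h1, h3]
      exact adj_low (ax_row (x := (r', s)) h2.1) h2.2
    · have h2 := mem_row.1 (hl2 ⟨⟨i, j⟩, h1⟩).1
      rw [hα1' i h1, hl1' ⟨i, j⟩ h1]
      exact adj_low (ax_row (x := (r, α' ⟨i, h1⟩)) h2.1) h2.2
  · intro u hu
    by_cases h1 : u.1 = i₀
    · rw [hl0 u h1] at hu
      exact absurd (congrArg Prod.fst (key hu)).symm hr
    · rw [hl1' u h1] at hu
      exact (hlS _).1 (congrArg Prod.snd (key hu))
  · intro u i hu
    by_cases h1 : u.1 = i₀ <;> by_cases h2 : i = i₀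
    · rw [hl0 u h1, h2, hα0] at hu
      exact (mem_row.1 (hν1 _ (hlt u h1))).1 (congrArg Prod.snd (key hu))
    · rw [hl0 u h1, hα1' i h2] at hu
      exact absurd (congrArg Prod.fst (key hu)).symm hr
    · rw [hl1' u h1, h2, hα0] at hu
      exact absurd (congrArg Prod.fst (key hu)) hr
    · rw [hl1' u h1, hα1' i h2] at hu
      exact (hlS _).2 _ (congrArg Prod.snd (key hu))

/-- Step (6): the degrees. -/
theorem deg_le (b : Bool) (hb : ∀ y x, Q y x = b) (x : X n k) : (nbr P b x).card ≤ k := by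
  classical
  by_contra hcon
  push Not at hcon
  set K := (nbr P b x).card with hK
  have y₀ : Fin h := ⟨0, hN.h1⟩
  have h1 : ∀ i, K ≤ c i := by
    intro i
    obtain ⟨u, hu⟩ := card_pos.1 (show 0 < (nbr P b x).card by omega)
    rw [mem_nbr] at hu
    exact st2 hfree (fun y => hb y u) hu.1.symm (by rw [hsym]; exact hu.2) hsym i
  have h2 : ∑ j, c j < (h + 1) * K + h := by
    by_contra h3
    push Not at h3
    have := hN.small K h1 h3
    omega
  apply hfree b
  obtain ⟨ν, hν1, hν2⟩ := enum (nbr P b x) K x le_rfl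
  have hc1 : Fintype.card {y : Fin h // y ≠ y₀} = h - 1 := by
    rw [Fintype.card_subtype_compl, Fintype.card_subtype_eq, Fintype.card_fin]
  have hc2 : Fintype.card {u : (Σ i, Fin (c i)) // ¬ u.2.val < K} + (h + 1) * K ≤ ∑ j, c j := by
    have h1 : Fintype.card ({u : (Σ i, Fin (c i)) // ¬ u.2.val < K} ⊕ (Fin (h + 1) × Fin K)) ≤
        Fintype.card (Σ i, Fin (c i)) := by
      refine Fintype.card_le_of_injective
        (fun u => match u with | .inl u => u.1 | .inr j => ⟨j.1, Fin.castLE (h1 j.1) j.2⟩) ?_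
      rintro (⟨u, hu⟩ | ⟨i, j⟩) (⟨u', hu'⟩ | ⟨i', j'⟩) huu
      · have h2 : u = u' := huu
        subst h2; rfl
      · have h2 : u = ⟨i', Fin.castLE (h1 i') j'⟩ := huu
        refine absurd ?_ hu
        rw [h2]; exact j'.2
      · have h2 : (⟨i, Fin.castLE (h1 i) j⟩ : (Σ i, Fin (c i))) = u' := huu
        refine absurd ?_ hu'
        rw [← h2]; exact j.2
      · have h2 : (⟨i, Fin.castLE (h1 i) j⟩ : (Σ i, Fin (c i))) = ⟨i', Fin.castLE (h1 i') j'⟩ := huu
        have h3 : i = i' := congrArg Sigma.fst h2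
        subst h3
        have h4 : Fin.castLE (h1 i) j = Fin.castLE (h1 i) j' := by simpa using h2
        have h5 : j = j' := Fin.castLE_injective _ h4
        rw [h5]
    simpa [Fintype.card_sum, Fintype.card_sigma, Fintype.card_prod] using h1
  have hemb : Fintype.card {u : (Σ i, Fin (c i)) // ¬ u.2.val < K} ≤ Fintype.card {y : Fin h // y ≠ y₀} := by
    rw [hc1]; omega
  obtain ⟨φ⟩ := Embedding.nonempty_of_card_le hemb
  set l : (Σ i, Fin (c i)) → Fin h ⊕ (ℕ × X n k) := fun u =>
    if hu : u.2.val < K then .inr (u.1.val, ν u.2.val) else .inl (φ ⟨u, hu⟩) with hl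
  have hl0 : ∀ u : (Σ i, Fin (c i)), u.2.val < K → l u = .inr (u.1.val, ν u.2.val) := fun u hu => by
    simp only [hl, dif_pos hu]
  have hl1 : ∀ u : (Σ i, Fin (c i)), ∀ hu : ¬ u.2.val < K, l u = .inl (φ ⟨u, hu⟩) := fun u hu => by
    simp only [hl, dif_neg hu]
  refine emb_T2 c _ (.inl y₀) (fun i => .inr (i.val, x)) l ?_ ?_ ?_ ?_ ?_ ?_
  · intro i i' hii
    have h3 : (i.val, x) = (i'.val, x) := Sum.inr.inj hii
    exact Fin.ext (congrArg Prod.fst h3)
  · intro u u' huu
    by_cases e1 : u.2.val < K <;> by_cases e2 : u'.2.val < K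
    · rw [hl0 u e1, hl0 u' e2] at huu
      have h3 : (u.1.val, ν u.2.val) = (u'.1.val, ν u'.2.val) := Sum.inr.inj huu
      have h4 := hν2 _ e1 _ e2 (congrArg Prod.snd h3)
      obtain ⟨i, j⟩ := u
      obtain ⟨i', j'⟩ := u'
      have h5 : i = i' := Fin.ext (congrArg Prod.fst h3)
      subst h5
      have h6 : j = j' := Fin.ext h4
      rw [h6]
    · rw [hl0 u e1, hl1 u' e2] at huu; exact absurd huu (by simp)
    · rw [hl1 u e1, hl0 u' e2] at huu; exact absurd huu (by simp)
    · rw [hl1 u e1, hl1 u' e2] at huu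
      have h3 := φ.injective (Subtype.ext (Sum.inl.inj huu))
      exact congrArg Subtype.val h3
  · intro i; exact adj_hub (hb _ _)
  · intro i j
    by_cases e1 : j.val < K
    · have h3 := mem_nbr.1 (hν1 _ e1)
      rw [hl0 ⟨i, j⟩ e1]
      exact adj_low h3.1 h3.2
    · rw [hl1 ⟨i, j⟩ e1]; exact (adj_hub (hb _ _)).symm
  · intro u hu
    by_cases e1 : u.2.val < K
    · rw [hl0 u e1] at hu; exact absurd hu (by simp)
    · rw [hl1 u e1] at hu
      exact (φ ⟨u, e1⟩).2 (Sum.inl.inj hu)
  · intro u i hu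
    by_cases e1 : u.2.val < K
    · rw [hl0 u e1] at hu
      have h3 : (u.1.val, ν u.2.val) = (i.val, x) := Sum.inr.inj hu
      exact (mem_nbr.1 (hν1 _ e1)).1.1 (congrArg Prod.snd h3).symm
    · rw [hl1 u e1] at hu; exact absurd hu (by simp)

/-- The rows are complete in the other colour. -/
theorem row_full (b : Bool) (hb : ∀ y x, Q y x = b) (r : Fin (k + 1)) (s t : Fin n) (hst : t ≠ s) :
    P (r, s) (r, t) = !b := by
  classical
  by_contra hcon
  have hP : P (r, s) (r, t) = b := by cases h1 : P (r, s) (r, t) <;> cases b <;> simp_all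
  have h1 := deg_le hN hfree hsym b hb (r, s)
  have h2 : insert (r, t) ((univ.erase r).image fun r' => (r', s)) ⊆ nbr P b (r, s) := by
    intro u hu
    rw [mem_insert, mem_image] at hu
    rw [mem_nbr]
    rcases hu with rfl | ⟨r', hr', rfl⟩
    · exact ⟨ax_row (x := (r, s)) hst, hP⟩
    · have hr := ne_of_mem_erase hr'
      exact ⟨⟨fun h => hr (congrArg Prod.fst h).symm, Or.inr rfl⟩, col_typ hN hfree hsym b hb r r' hr.symm s⟩
  have h3 := card_le_card h2
  rw [card_insert_of_notMem, card_image_of_injective, card_erase_of_mem (mem_univ _), card_univ,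
    Fintype.card_fin] at h3
  · omega
  · intro a a' haa
    exact congrArg Prod.fst haa
  · rw [mem_image]
    rintro ⟨r', -, hr'⟩
    exact hst (congrArg Prod.snd hr').symm

omit hsym in
/-- The contradiction. -/
theorem absurd' (hsym : ∀ x y, P x y = P y x) : False := by
  have y₀ : Fin h := ⟨0, hN.h1⟩
  obtain ⟨b, hb0⟩ := all_typ hN hfree hsym y₀
  have hb : ∀ y x, Q y x = b := fun y x => by rw [typ hN hfree x y y₀]; exact hb0 x
  have hn := hN.hn
  apply hfree (!b)
  have hfull := row_full hN hfree hsym b hb 0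
  have hs : (∑ j, c j) = ∑ i : Fin (h + 1), c i := rfl
  set idx : (Σ i, Fin (c i)) → ℕ := fun u => (finSigmaFinEquiv u).val with hidx
  have hlt : ∀ u, idx u < ∑ j, c j := fun u => (finSigmaFinEquiv u).2
  have hinj : Injective idx := fun u u' h => finSigmaFinEquiv.injective (Fin.ext h)
  have hadj : ∀ s t : Fin n, s.val ≠ t.val →
      (Gm P Q (!b)).Adj (.inr (0, ((0 : Fin (k + 1)), s))) (.inr (0, ((0 : Fin (k + 1)), t))) := by
    intro s t hst
    have h1 : t ≠ s := fun h => hst (by rw [h])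
    exact adj_low (ax_row (x := ((0 : Fin (k + 1)), s)) h1) (hfull s t h1)
  have key : ∀ {s t : Fin n}, (Sum.inr (0, ((0 : Fin (k + 1)), s)) : Fin h ⊕ (ℕ × X n k)) = .inr (0, ((0 : Fin (k + 1)), t)) →
      s.val = t.val := fun {s t} h => by
    have h1 : (0, ((0 : Fin (k + 1)), s)) = ((0 : ℕ), ((0 : Fin (k + 1)), t)) := Sum.inr.inj h
    exact congrArg (fun z : ℕ × X n k => z.2.2.val) h1
  refine emb_T2 c _ (.inr (0, (0, ⟨0, by omega⟩))) (fun i => .inr (0, (0, ⟨1 + i.val, by have := i.2; omega⟩)))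
    (fun u => .inr (0, (0, ⟨2 + h + idx u, by have := hlt u; omega⟩))) ?_ ?_ ?_ ?_ ?_ ?_
  · intro i i' hii
    have h1 := key hii
    simp only at h1
    exact Fin.ext (by omega)
  · intro u u' huu
    have h1 := key huu
    simp only at h1
    exact hinj (by omega)
  · intro i
    exact hadj _ _ (by simp only; omega)
  · intro i j
    refine hadj _ _ ?_
    have := i.2
    simp only
    omega
  · intro u hu
    have h1 := key hu
    simp only at h1
    omega
  · intro u i hu
    have h1 := key hu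
    have := i.2
    simp only at h1
    omega

end main

/-- **Row R2B.** -/
theorem r2b_proof : R2BStatement := by
  intro h c n k h1 hn hbig _ _ hsmall col hcol
  have hN : Num h c n k := ⟨h1, hn, hbig, hsmall⟩
  -- infinitely many copies have the same pattern
  obtain ⟨p, hp⟩ := Finite.exists_infinite_fiber
    (fun m : ℕ => ((fun x y => col (.inr (m, x)) (.inr (m, y)), fun i x => col (.inl i) (.inr (m, x))) :
      (X n k → X n k → Bool) × (Fin h → X n k → Bool)))
  obtain ⟨P, Q⟩ := p
  set M : Set ℕ := (fun m : ℕ => ((fun x y => col (.inr (m, x)) (.inr (m, y)), fun i x => col (.inl i) (.inr (m, x))) :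
      (X n k → X n k → Bool) × (Fin h → X n k → Bool))) ⁻¹' {(P, Q)} with hM
  have hMinf : Infinite M := hp
  set e : ℕ ↪ M := Infinite.natEmbedding M with he
  have heP : ∀ m x y, col (.inr ((e m : ℕ), x)) (.inr ((e m : ℕ), y)) = P x y := by
    intro m x y
    have h2 : ((fun x y => col (.inr ((e m : ℕ), x)) (.inr ((e m : ℕ), y)), fun i x => col (.inl i) (.inr ((e m : ℕ), x))) :
      (X n k → X n k → Bool) × (Fin h → X n k → Bool)) = (P, Q) := (e m).2
    exact congrFun (congrFun (congrArg Prod.fst h2) x) y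
  have heQ : ∀ m i x, col (.inl i) (.inr ((e m : ℕ), x)) = Q i x := by
    intro m i x
    have h2 : ((fun x y => col (.inr ((e m : ℕ), x)) (.inr ((e m : ℕ), y)), fun i x => col (.inl i) (.inr ((e m : ℕ), x))) :
      (X n k → X n k → Bool) × (Fin h → X n k → Bool)) = (P, Q) := (e m).2
    exact congrFun (congrFun (congrArg Prod.snd h2) i) x
  have hsym : ∀ x y, P x y = P y x := by
    intro x y
    rw [← heP 0, ← heP 0, hcol]
  by_contra hcon
  push Not at hcon
  refine absurd' (P := P) (Q := Q) hN ?_ hsym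
  intro b ⟨f, hf1, hf2⟩
  apply hcon b
  set g : Fin h ⊕ (ℕ × X n k) → Fin h ⊕ (ℕ × Fin (k + 1) × Fin n) :=
    Sum.map id (Prod.map (fun m => (e m : ℕ)) id) with hg
  have hgi : Injective g := by
    refine Injective.sumMap injective_id (Injective.prodMap ?_ injective_id)
    intro m m' hm
    exact e.injective (Subtype.ext hm)
  refine ⟨g ∘ f, hgi.comp hf1, fun i j hij => ?_⟩
  have h2 := hf2 i j hij
  have key : ∀ u v, (Gm P Q b).Adj u v → (cls (FB h n k) col b).Adj (g u) (g v) := by
    intro u v huv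
    rw [Gm, SimpleGraph.fromRel_adj] at huv
    obtain ⟨hne, huv⟩ := huv
    have hne' : g u ≠ g v := fun h => hne (hgi h)
    rcases u with i | ⟨m, x⟩ <;> rcases v with i' | ⟨m', x'⟩
    · rcases huv with h | h <;> exact h.elim
    · rcases huv with h | h
      · have h3 : Q i x' = b := h
        have h4 : col (g (.inl i)) (g (.inr (m', x'))) = b := by rw [← h3]; exact heQ m' i x'
        refine ⟨?_, h4, by rw [hcol]; exact h4⟩
        rw [FB, SimpleGraph.fromRel_adj]
        exact ⟨hne', Or.inl trivial⟩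
      · exact h.elim
    · rcases huv with h | h
      · exact h.elim
      · have h3 : Q i' x = b := h
        have h4 : col (g (.inl i')) (g (.inr (m, x))) = b := by rw [← h3]; exact heQ m i' x
        refine ⟨?_, by rw [hcol]; exact h4, h4⟩
        rw [FB, SimpleGraph.fromRel_adj]
        exact ⟨hne', Or.inr trivial⟩
    · have h3 : m = m' ∧ Ax x x' ∧ P x x' = b := by
        rcases huv with h | h
        · exact h
        · have h : m' = m ∧ Ax x' x ∧ P x' x = b := h
          exact ⟨h.1.symm, h.2.1.symm, by rw [hsym]; exact h.2.2⟩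
      obtain ⟨rfl, hax, hP⟩ := h3
      have h4 : col (g (.inr (m, x))) (g (.inr (m, x'))) = b := by rw [← hP]; exact heP m x x'
      refine ⟨?_, h4, by rw [hcol]; exact h4⟩
      rw [FB, SimpleGraph.fromRel_adj]
      exact ⟨hne', Or.inl ⟨rfl, hax.2⟩⟩
  exact key _ _ h2

end

end MP3240T.H31
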